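import Mathlib
import Pool.Agent.MP_2291e2_gt.ab.Main

open scoped ContDiff RealInnerProductSpace
open Pool.Agent.MP_2291e2_gt.Zl Pool.Agent.MP_2291e2_gt.Ab

/-- A Zoll metric `exp (2 σ) g₀` on the 2-sphere all of whose geodesics bisect the area is
round: `exp (-σ)` is the restriction of an affine function. -/
theorem Pool.Agent.Results.MP_2291e2_gt.AreaBisect.result :
    ∀ σ : E → ℝ, ContDiff ℝ ∞ σ → IsZoll (Lc σ) →
      (∀ c, IsGeodesic (Lc σ) c → Bisects σ c) →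
      ∃ (A : ℝ) (b : E), ‖b‖ < A ∧ ∀ y : E, ‖y‖ = 1 → Real.exp (-σ y) = A + ⟪b, y⟫ :=
  fun σ h hZ hB => (mainS σ h hZ hB).elim fun _ hk => round_of_const h hk.2
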