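import Mathlib
import Pool.Agent.MP_2291e2_gt.zl.All2

open scoped ContDiff
open Pool.Agent.MP_2291e2_gt.Zl

/-- Any two reversible Zoll Finsler metrics on the 2-sphere are joined by a smooth path of
reversible Zoll Finsler metrics. -/
theorem Pool.Agent.Results.MP_2291e2_gt.FinslerZollConn.result :
    ∀ L₀ L₁ : E × E → ℝ, IsZoll L₀ → IsZoll L₁ →
      ∃ L : ℝ → E × E → ℝ,
        ContDiffOn ℝ ∞ (fun q : ℝ × (E × E) => L q.1 q.2) (Set.univ ×ˢ Ind) ∧
        (∀ s, IsZoll (L s) ∧ IsComplete (L s)) ∧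
        (∀ x w, Tan x w → L 0 (x, w) = L₀ (x, w)) ∧
        ∀ x w, Tan x w → L 1 (x, w) = L₁ (x, w) :=
  conn_of main_all geo_all zcongr_of smale_all
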